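import Mathlib

set_option maxRecDepth 100000

namespace Pool.Agent.Results.MP_9fddba_co.Counter

/-- The Davenport constant: the least positive `t` such that every sequence (multiset) over `G`
of length at least `t` has a non-empty zero-sum subsequence. -/
noncomputable def davenport (G : Type) [AddCommGroup G] : ℕ :=
  sInf {t : ℕ | 0 < t ∧ ∀ S : Multiset G, t ≤ S.card → ∃ S' ≤ S, S' ≠ 0 ∧ S'.sum = 0}

abbrev V := Fin 4 → ZMod 2
abbrev H := V × ZMod 3

def ZSF (S : Multiset H) : Prop := ∀ Q ≤ S, Q.sum = 0 → Q = 0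

def e (i : Fin 4) : V := fun j => if j = i then 1 else 0

lemma zsf_map (φ : H ≃+ H) {S : Multiset H} (h : ZSF S) : ZSF (S.map φ) := by
  intro Q hQ hs
  have h1 : Q.map φ.symm ≤ S := by
    have := Multiset.map_le_map (f := φ.symm) hQ
    simpa [Multiset.map_map] using this
  have h2 : (Q.map φ.symm).sum = 0 := by rw [← map_multiset_sum, hs, map_zero]
  simpa using h _ h1 h2

def psi (d k : Fin 4) (w x : V) : V :=
  fun i => x (Equiv.swap k d i) + x k * (w (Equiv.swap k d i) + e k (Equiv.swap k d i))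

lemma psi_spec : ∀ (d k : Fin 4) (w : V), d ≤ k → w k = 1 →
    psi d k w w = e d ∧ (∀ i, i < d → psi d k w (e i) = e i) ∧
    ∀ x, psi d k w x = 0 → x = 0 := by decide +kernel

def psiH (d k : Fin 4) (w : V) : H →+ H where
  toFun x := (psi d k w x.1, x.2)
  map_zero' := by ext i <;> simp [psi]
  map_add' x y := by
    ext i
    · simp [psi]; ring
    · simp

lemma step (d : Fin 4) (B T : Multiset H) (hB : ∀ b ∈ B, ∃ i, i < d ∧ b.1 = e i) (hT : T ≠ 0)
    (h : ZSF (B + T)) : ∃ (c : ZMod 3) (T' : Multiset H), T'.card + 1 = T.card ∧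
      ZSF (((e d, c) ::ₘ B) + T') := by
  by_cases hc : ∃ t ∈ T, t.1 d ≠ 0
  · obtain ⟨t, ht, hk⟩ := hc
    have hk1 : t.1 d = 1 := by
      revert hk; generalize t.1 d = z; revert z; decide
    obtain ⟨s1, s2, s3⟩ := psi_spec d d t.1 le_rfl hk1
    have inj : Function.Injective (psiH d d t.1) := by
      rw [injective_iff_map_eq_zero]
      intro x hx
      have h1 : psi d d t.1 x.1 = 0 := congrArg Prod.fst hx
      have h2 : (psiH d d t.1 x).2 = 0 := congrArg Prod.snd hx
      exact Prod.ext (s3 x.1 h1) h2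
    let φ : H ≃+ H := AddEquiv.ofBijective (psiH d d t.1) (Finite.injective_iff_bijective.1 inj)
    obtain ⟨T0, rfl⟩ := Multiset.exists_cons_of_mem ht
    refine ⟨t.2, T0.map φ, by simp, ?_⟩
    have := zsf_map φ h
    have hBφ : B.map φ = B := by
      conv_rhs => rw [← Multiset.map_id B]
      apply Multiset.map_congr rfl
      intro b hb
      obtain ⟨i, hi, hbi⟩ := hB b hb
      show (psi d d t.1 b.1, b.2) = b
      rw [hbi, s2 i hi, ← hbi]
    have ht' : φ t = (e d, t.2) := by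
      show (psi d d t.1 t.1, t.2) = _
      rw [s1]
    rw [Multiset.map_add, hBφ, Multiset.map_cons, ht', Multiset.add_cons] at this
    rwa [Multiset.cons_add]
  · push Not at hc
    obtain ⟨t, ht⟩ := Multiset.exists_mem_of_ne_zero hT
    obtain ⟨T0, rfl⟩ := Multiset.exists_cons_of_mem ht
    refine ⟨0, T0, by simp, ?_⟩
    rw [Multiset.cons_add]
    intro Q hQ hs
    have hsub : B + T0 ≤ B + t ::ₘ T0 := Multiset.add_le_add_left (Multiset.le_cons_self _ _)
    by_cases hm : (e d, (0 : ZMod 3)) ∈ Q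
    · exfalso
      obtain ⟨Q', rfl⟩ := Multiset.exists_cons_of_mem hm
      rw [Multiset.cons_le_cons_iff] at hQ
      have hz : ∀ x ∈ Q', x.1 d = 0 := by
        intro x hx
        rcases Multiset.mem_add.1 (Multiset.mem_of_le hQ hx) with hx | hx
        · obtain ⟨i, hi, hbi⟩ := hB x hx
          rw [hbi]
          simp [e, hi.ne']
        · exact hc x (Multiset.mem_cons_of_mem hx)
      have hq : Q'.sum.1 d = 0 :=
        Multiset.sum_induction (fun x : H => x.1 d = 0) Q'
          (fun a b ha hb => by simp [ha, hb]) rfl hz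
      have := congrArg (fun x : H => x.1 d) hs
      simp [hq, e] at this
    · exact h Q (((Multiset.le_cons_of_notMem hm).1 hQ).trans hsub) hs

def dec (g : ℕ) : H := (fun i => (((g >>> i.val) % 2 : ℕ) : ZMod 2), ((g / 16 : ℕ) : ZMod 3))

lemma dec_surj : ∀ x : H, ∃ g : Fin 48, dec g = x := by decide +kernel

def Inv (R : ℕ) (P : Multiset H) (t : H) : Prop :=
  ∀ g, R.testBit g = true → g < 48 ∧ ∃ Q ≤ P, -Q.sum + t = dec g

def mv (R M s s' M' : ℕ) : ℕ := ((R &&& M) <<< s) ||| ((R >>> s') &&& M')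

def MvOK (M s s' M' : ℕ) (u : H) : Prop :=
  (∀ g : Fin 48, M.testBit g = true → g + s < 48 ∧ dec (g + s) = dec g + u) ∧
  ∀ g : Fin 48, M'.testBit (g - s') = true → s' ≤ g → dec (g - s') = dec g + u

instance (M s s' M' : ℕ) (u : H) : Decidable (MvOK M s s' M' u) := by
  unfold MvOK; infer_instance

lemma inv_mv {R M s s' M' : ℕ} {P : Multiset H} {t u : H} (ok : MvOK M s s' M' u)
    (h : Inv R P t) : Inv (mv R M s s' M') P (t + u) := by
  intro g hg
  simp only [mv, Nat.testBit_or, Nat.testBit_shiftLeft, Nat.testBit_and, Nat.testBit_shiftRight,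
    Bool.or_eq_true, Bool.and_eq_true, decide_eq_true_eq] at hg
  rcases hg with ⟨h1, h2, h3⟩ | ⟨h2, h3⟩
  · obtain ⟨hl, Q, hQ, hs⟩ := h _ h2
    obtain ⟨a, b⟩ := ok.1 ⟨g - s, hl⟩ h3
    simp only [Nat.sub_add_cancel h1] at a b
    exact ⟨a, Q, hQ, by rw [b, ← hs, add_assoc]⟩
  · obtain ⟨hl, Q, hQ, hs⟩ := h _ h2
    have b := ok.2 ⟨s' + g, hl⟩ (by simpa using h3) (by simp)
    simp only [Nat.add_sub_cancel_left] at b
    exact ⟨by omega, Q, hQ, by rw [b, ← hs, add_assoc]⟩

def cmv (c : Bool) (R M s s' M' : ℕ) : ℕ := bif c then mv R M s s' M' else R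
def cu (c : Bool) (u : H) : H := bif c then u else 0

lemma inv_cmv {R M s s' M' : ℕ} {P : Multiset H} {t u : H} (c : Bool) (ok : MvOK M s s' M' u)
    (h : Inv R P t) : Inv (cmv c R M s s' M') P (t + cu c u) := by
  cases c
  · simpa [cmv, cu] using h
  · exact inv_mv ok h

def tr (R a : ℕ) : ℕ :=
  cmv (a.testBit 5) (cmv (a.testBit 4) (cmv (a.testBit 3) (cmv (a.testBit 2) (cmv (a.testBit 1)
    (cmv (a.testBit 0) R 0x555555555555 1 1 0x555555555555) 0x333333333333 2 2 0x333333333333) 0xf0f0f0f0f0f 4 4 0xf0f0f0f0f0f) 0xff00ff00ff 8 8 0xff00ff00ff)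
    0xffffffff 16 32 0xffff) 0xffff 32 16 0xffffffff

lemma tr_sum : ∀ a : Fin 48, 0 + cu (a.val.testBit 0) (dec 1) + cu (a.val.testBit 1) (dec 2) +
    cu (a.val.testBit 2) (dec 4) + cu (a.val.testBit 3) (dec 8) + cu (a.val.testBit 4) (dec 16) +
    cu (a.val.testBit 5) (dec 32) = dec a := by decide +kernel

def ng (a : ℕ) : ℕ := bif a.blt 16 then a else bif a.blt 32 then a + 16 else a - 16

lemma ng_spec : ∀ a : Fin 48, ng a < 48 ∧ dec (ng a) = -dec a := by decide +kernel

lemma inv_tr {R a : ℕ} {P : Multiset H} (ha : a < 48) (h : Inv R P 0) :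
    Inv (R ||| tr R (ng a)) (dec a ::ₘ P) 0 := by
  have h1 : Inv (tr R (ng a)) P (dec (ng a)) := by
    have := tr_sum ⟨ng a, (ng_spec ⟨a, ha⟩).1⟩
    rw [← this]
    exact inv_cmv _ (by decide +kernel) (inv_cmv _ (by decide +kernel) (inv_cmv _
      (by decide +kernel) (inv_cmv _ (by decide +kernel) (inv_cmv _ (by decide +kernel)
      (inv_cmv _ (by decide +kernel) h)))))
  intro g hg
  rw [Nat.testBit_or, Bool.or_eq_true] at hg
  rcases hg with hg | hg
  · obtain ⟨hl, Q, hQ, hs⟩ := h g hg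
    exact ⟨hl, Q, hQ.trans (Multiset.le_cons_self _ _), hs⟩
  · obtain ⟨hl, Q, hQ, hs⟩ := h1 g hg
    exact ⟨hl, dec a ::ₘ Q, Multiset.cons_le_cons _ hQ, by
      rw [Multiset.sum_cons, add_zero, ← hs, (ng_spec ⟨a, ha⟩).2]; abel⟩

def allB (f : ℕ → Bool) : ℕ → Bool
  | 0 => true
  | m + 1 => f m && allB f m

lemma allB_spec {f : ℕ → Bool} : ∀ {m : ℕ}, allB f m = true → ∀ a < m, f a = true
  | 0, _, _, h => absurd h (Nat.not_lt_zero _)
  | m + 1, h, a, ha => by
    simp only [allB, Bool.and_eq_true] at h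
    rcases Nat.lt_succ_iff_lt_or_eq.1 ha with h' | rfl
    · exact allB_spec h.2 a h'
    · exact h.1

def chk : ℕ → ℕ → ℕ → Bool
  | 0, _, _ => false
  | k + 1, R, m => Nat.beq (R % 2 ^ m + 1) (2 ^ m) ||
      allB (fun a => R.testBit a || chk k (R ||| tr R (ng a)) (a + 1)) m

lemma chk_sound : ∀ (k R m : ℕ) (P : Multiset H) (T : Multiset ℕ), chk k R m = true →
    m ≤ 48 → T.card = k → (∀ a ∈ T, a < m) → Inv R P 0 → ¬ ZSF (P + T.map dec) := by
  intro k
  induction k with
  | zero => intro R m P T h; simp [chk] at h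
  | succ k ih =>
    intro R m P T h hm hc hT hI hz
    have hne : T ≠ 0 := by rintro rfl; simp at hc
    obtain ⟨a, ha, hmax⟩ := Multiset.exists_max_image (fun x : ℕ => x) hne
    obtain ⟨T0, rfl⟩ := Multiset.exists_cons_of_mem ha
    have ha48 : a < 48 := lt_of_lt_of_le (hT a ha) hm
    have h1 : R.testBit a = true ∨ chk k (R ||| tr R (ng a)) (a + 1) = true := by
      rw [chk, Bool.or_eq_true] at h
      rcases h with h | h
      · left
        have e1 : R % 2 ^ m = 2 ^ m - 1 := by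
          have := Nat.eq_of_beq_eq_true h
          omega
        have e2 := congrArg (fun x => x.testBit a) e1
        simpa [hT a ha] using e2
      · exact (Bool.or_eq_true _ _).mp (allB_spec h a (hT a ha))
    rw [Multiset.map_cons, Multiset.add_cons, ← Multiset.cons_add] at hz
    rcases h1 with h1 | h1
    · obtain ⟨-, Q, hQ, hs⟩ := hI _ h1
      have := hz (dec a ::ₘ Q) ((Multiset.cons_le_cons _ hQ).trans (Multiset.le_add_right _ _))
        (by rw [Multiset.sum_cons, ← hs]; abel)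
      simp at this
    · exact ih _ _ _ T0 h1 (by omega) (by simpa using hc)
        (fun b hb => Nat.lt_succ_of_le (hmax b (Multiset.mem_cons_of_mem hb))) (inv_tr ha48 hI) hz

def ad (R a : ℕ) : ℕ := R ||| tr R (ng a)

def MC (c0 c1 : ℕ) : Prop := ∀ c2 c3 : Fin 3,
    chk 5 (ad (ad (ad (ad 1 (1 + 16 * c0)) (2 + 16 * c1)) (4 + 16 * c2)) (8 + 16 * c3)) 48 = true

instance (c0 c1 : ℕ) : Decidable (MC c0 c1) := by unfold MC; infer_instance

lemma mc00 : MC 0 0 := by decide +kernel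
lemma mc01 : MC 0 1 := by decide +kernel
lemma mc02 : MC 0 2 := by decide +kernel
lemma mc10 : MC 1 0 := by decide +kernel
lemma mc11 : MC 1 1 := by decide +kernel
lemma mc12 : MC 1 2 := by decide +kernel
lemma mc20 : MC 2 0 := by decide +kernel
lemma mc21 : MC 2 1 := by decide +kernel
lemma mc22 : MC 2 2 := by decide +kernel

lemma main_chk (c0 c1 : Fin 3) : MC c0 c1 := by
  fin_cases c0 <;> fin_cases c1
  exacts [mc00, mc01, mc02, mc10, mc11, mc12, mc20, mc21, mc22]

lemma dec_e : ∀ (i : Fin 4) (c : ZMod 3), ∃ c' : Fin 3, (e i, c) = dec (2 ^ i.val + 16 * c') := by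
  decide +kernel

lemma upper (S : Multiset H) (hS : S.card = 9) : ¬ ZSF S := by
  intro h
  obtain ⟨c0, T0, n0, h0⟩ := step 0 0 S (by simp) (by rintro rfl; simp at hS) (by simpa using h)
  obtain ⟨c1, T1, n1, h1⟩ := step 1 _ T0 (by
    intro b hb
    simp only [Multiset.mem_cons, Multiset.notMem_zero, or_false] at hb
    exact ⟨0, by decide, by rw [hb]⟩) (by rintro rfl; simp at n0; omega) h0
  obtain ⟨c2, T2, n2, h2⟩ := step 2 _ T1 (by
    intro b hb
    simp only [Multiset.mem_cons, Multiset.notMem_zero, or_false] at hb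
    rcases hb with hb | hb
    · exact ⟨1, by decide, by rw [hb]⟩
    · exact ⟨0, by decide, by rw [hb]⟩) (by rintro rfl; simp at n1; omega) h1
  obtain ⟨c3, T3, n3, h3⟩ := step 3 _ T2 (by
    intro b hb
    simp only [Multiset.mem_cons, Multiset.notMem_zero, or_false] at hb
    rcases hb with hb | hb | hb
    · exact ⟨2, by decide, by rw [hb]⟩
    · exact ⟨1, by decide, by rw [hb]⟩
    · exact ⟨0, by decide, by rw [hb]⟩) (by rintro rfl; simp at n2; omega) h2
  obtain ⟨d0, e0⟩ := dec_e 0 c0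
  obtain ⟨d1, e1⟩ := dec_e 1 c1
  obtain ⟨d2, e2⟩ := dec_e 2 c2
  obtain ⟨d3, e3⟩ := dec_e 3 c3
  choose enc henc using dec_surj
  have hT3 : T3 = (T3.map (fun x => (enc x).val)).map dec := by
    rw [Multiset.map_map]
    conv_lhs => rw [← Multiset.map_id T3]
    exact Multiset.map_congr rfl (fun x _ => (henc x).symm)
  rw [e0, e1, e2, e3, hT3] at h3
  have i0 : Inv 1 0 0 := by
    intro g hg
    have : g = 0 := by
      rcases g with _ | g
      · rfl
      · simp [Nat.testBit_succ] at hg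
    subst this
    exact ⟨by norm_num, 0, le_rfl, by decide +kernel⟩
  refine chk_sound 5 _ 48 _ _ (main_chk d0 d1 d2 d3) le_rfl (by rw [Multiset.card_map]; omega)
    ?_ (inv_tr ?_ (inv_tr ?_ (inv_tr ?_ (inv_tr ?_ i0)))) h3
  · intro a ha
    obtain ⟨x, -, rfl⟩ := Multiset.mem_map.1 ha
    exact (enc x).isLt
  all_goals omega

def S10 : Multiset H := (([16, 16, 16, 33, 34, 36, 39, 40, 43, 45] : List ℕ).map dec : List H)
def S8 : Multiset H := (([16, 17, 18, 20, 23, 24, 27, 29] : List ℕ).map dec : List H)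

lemma S10_spec : ∀ Q ∈ S10.powerset, Q.sum = 0 → Q.card = 0 ∨ Q.card % 2 = 1 := by decide +kernel
lemma S8_spec : ∀ Q ∈ S8.powerset, Q.sum = 0 → Q.card = 0 := by decide +kernel

lemma dav : davenport H = 9 := by
  apply IsLeast.csInf_eq
  constructor
  · refine ⟨by norm_num, fun S hS => ?_⟩
    obtain ⟨S0, h0, hc⟩ : ∃ S0 ≤ S, S0.card = 9 := by
      have h1 : 0 < (S.powersetCard 9).card := by
        rw [Multiset.card_powersetCard]; exact Nat.choose_pos hS
      obtain ⟨S0, h2⟩ := Multiset.card_pos_iff_exists_mem.1 h1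
      exact ⟨S0, Multiset.mem_powersetCard.1 h2⟩
    have := upper S0 hc
    unfold ZSF at this
    push Not at this
    obtain ⟨Q, hQ, hs, hn⟩ := this
    exact ⟨Q, hQ.trans h0, hn, hs⟩
  · rintro t ⟨-, ht⟩
    by_contra hlt
    obtain ⟨Q, hQ, hn, hs⟩ := ht S8 (by rw [show S8.card = 8 from rfl]; omega)
    exact hn (Multiset.card_eq_zero.1 (S8_spec Q (Multiset.mem_powerset.2 hQ) hs))

def nn : Fin 4 → ℕ := ![2, 2, 2, 6]

instance (j : Fin 4) : NeZero (nn j) := ⟨by revert j; decide⟩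

def toP (x : H) : (j : Fin 4) → ZMod (nn j) :=
  fun j => ((if j = 3 then 3 * (x.1 j).val + 4 * x.2.val else (x.1 j).val : ℕ) : ZMod (nn j))

lemma toP_add : ∀ x y : H, toP (x + y) = toP x + toP y := by decide +kernel
lemma toP_inj : ∀ x y : H, toP x = toP y → x = y := by decide +kernel

noncomputable def iso : H ≃+ ((j : Fin 4) → ZMod (nn j)) :=
  AddEquiv.ofBijective (AddMonoidHom.mk' toP toP_add)
    ((Fintype.bijective_iff_injective_and_card _).2 ⟨toP_inj, by
      simp only [Fintype.card_pi, ZMod.card, Fintype.card_prod]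
      decide⟩)

theorem result : ∃ (G : Type) (_ : AddCommGroup G) (_ : Finite G) (r : ℕ) (n : Fin (r + 1) → ℕ),
    1 < n 0 ∧ (∀ j : Fin r, n j.castSucc ∣ n j.succ) ∧
    Nonempty (G ≃+ ((j : Fin (r + 1)) → ZMod (n j))) ∧
    ∃ (i : ℕ) (S : Multiset G) (A : Finset ℕ), 1 ≤ i ∧ i ≤ n 0 ∧
      S.card = davenport G + i - 1 ∧ A ⊆ Finset.Icc 1 (n 0 - 1) ∧ A.card = i - 1 ∧
      ∀ S' ≤ S, S' ≠ 0 → S'.sum = 0 → ∃ b ∈ A, S'.card ≡ b [MOD n 0] := by
  refine ⟨H, inferInstance, inferInstance, 3, nn, by decide, by decide, ⟨iso⟩, 2, S10, {1},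
    by norm_num, by decide, by rw [dav]; rfl, by decide, rfl, ?_⟩
  intro Q hQ hn hs
  refine ⟨1, by simp, ?_⟩
  rcases S10_spec Q (Multiset.mem_powerset.2 hQ) hs with h | h
  · exact absurd (Multiset.card_eq_zero.1 h) hn
  · exact h

end Pool.Agent.Results.MP_9fddba_co.Counter
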